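import Mathlib
import Pool.Agent.Y298.LC.Stm

/-!
# Project LC: from a loop in the parameter plane to local connectivity (job LC-RETR)

The set `K` is the part of the Multibrot set in the filled loop.  If `K` were the union of two
disjoint closed sets, one of them, `B`, would be a compact set in the inside of the loop; the
points of small potential near `B` form, by connectedness of the sector, the whole sector of small
potentials, which has points of the loop in its closure.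
-/

set_option autoImplicit false

open Set Filter Metric MeasureTheory Topology Complex Bornology

namespace Pool.Agent.Y438.LC

open Pool.Agent.Y298.LC
open Pool.Agent.H713R2 (IsExteriorMap)
open N62a1eb23 (multibrotSet)

theorem norm_ex (σ t : ℝ) : ‖ex σ t‖ = Real.exp σ := by
  unfold ex
  rw [Complex.norm_exp]
  congr 1
  simp

theorem ex_int (σ t : ℝ) (n : ℤ) : ex σ (t + n) = ex σ t := by
  unfold ex
  have e : ((σ : ℂ) + 2 * Real.pi * ((t + n : ℝ) : ℂ) * I) =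
      ((σ : ℂ) + 2 * Real.pi * t * I) + n * (2 * Real.pi * I) := by
    push_cast
    ring
  rw [e, Complex.exp_add, Complex.exp_int_mul_two_pi_mul_I, mul_one]

theorem exists_ex {w : ℂ} (hw : 1 < ‖w‖) : ∃ t : ℝ, w = ex (Real.log ‖w‖) t := by
  have h0 : w ≠ 0 := by
    rintro rfl
    rw [norm_zero] at hw
    linarith
  refine ⟨arg w / (2 * Real.pi), ?_⟩
  unfold ex
  have e : ((Real.log ‖w‖ : ℝ) : ℂ) + 2 * Real.pi * ((arg w / (2 * Real.pi) : ℝ) : ℂ) * I =
      Complex.log w := by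
    rw [Complex.log]
    push_cast
    have : (Real.pi : ℂ) ≠ 0 := by exact_mod_cast Real.pi_ne_zero
    field_simp
  rw [e, Complex.exp_log h0]

theorem mem_dom {w : ℂ} : w ∈ Dom 0 ↔ 1 < ‖w‖ := by
  unfold Dom
  rw [mem_ofPred_eq]
  exact Real.log_pos_iff (norm_nonneg w)

theorem ex_mem {σ : ℝ} (hσ : 0 < σ) (t : ℝ) : 1 < ‖ex σ t‖ := by
  rw [norm_ex]
  exact Real.one_lt_exp_iff.2 hσ

theorem continuous_ex : Continuous (fun q : ℝ × ℝ => ex q.1 q.2) := by
  unfold ex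
  fun_prop

theorem isOpen_ext : IsOpen {w : ℂ | 1 < ‖w‖} := isOpen_lt continuous_const continuous_norm

/-- the part of the exterior at positive distance from the circle has closed image -/
theorem isClosed_far {ψ : ℂ → ℂ} {M : Set ℂ} (h : IsExteriorMap M ψ) {R : ℝ} (hR : 1 < R) :
    IsClosed (ψ '' {w | R ≤ ‖w‖}) := by
  rw [← closure_subset_iff_isClosed]
  intro z hz
  obtain ⟨N, hN⟩ : ∃ N : ℝ, ∀ w : ℂ, N < ‖w‖ → ‖z‖ + 1 ≤ ‖ψ w‖ := by
    have h1 : ∀ᶠ w in cobounded ℂ, ‖ψ w / w - 1‖ < 1 / 2 := by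
      have := Metric.tendsto_nhds.1 h.infinity (1 / 2) (by norm_num)
      simpa [dist_eq_norm] using this
    have h2 : ∀ᶠ w in cobounded ℂ, 2 * (‖z‖ + 1) ≤ ‖w‖ :=
      tendsto_norm_cobounded_atTop.eventually (eventually_ge_atTop _)
    have h3 : ∀ᶠ w in cobounded ℂ, ‖z‖ + 1 ≤ ‖ψ w‖ := by
      filter_upwards [h1, h2] with w a1 a2
      have hz0 := norm_nonneg z
      have hw0 : 0 < ‖w‖ := by linarith
      have hw : w ≠ 0 := norm_pos_iff.1 hw0
      have e : w = ψ w - (ψ w / w - 1) * w := by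
        field_simp
        ring
      have a3 : ‖w‖ ≤ ‖ψ w‖ + ‖(ψ w / w - 1) * w‖ := by
        conv_lhs => rw [e]
        exact norm_sub_le _ _
      rw [norm_mul] at a3
      nlinarith
    rw [← comap_norm_atTop, eventually_comap] at h3
    obtain ⟨N, hN⟩ := eventually_atTop.1 h3
    exact ⟨N, fun w hw => hN ‖w‖ hw.le w rfl⟩
  have hcov : ψ '' {w | R ≤ ‖w‖} ⊆ ψ '' {w | R ≤ ‖w‖ ∧ ‖w‖ ≤ N} ∪ {y | ‖z‖ + 1 ≤ ‖y‖} := by
    rintro _ ⟨w, hw, rfl⟩
    by_cases hwN : ‖w‖ ≤ N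
    · exact Or.inl ⟨w, ⟨hw, hwN⟩, rfl⟩
    · exact Or.inr (hN w (not_le.1 hwN))
  have hcomp : IsCompact (ψ '' {w | R ≤ ‖w‖ ∧ ‖w‖ ≤ N}) := by
    refine IsCompact.image_of_continuousOn ?_ ?_
    · refine Metric.isCompact_of_isClosed_isBounded ?_ ?_
      · exact (isClosed_le continuous_const continuous_norm).inter
          (isClosed_le continuous_norm continuous_const)
      · exact (isBounded_closedBall (x := (0 : ℂ)) (r := N)).subset
          fun w hw => mem_closedBall_zero_iff.2 hw.2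
    · exact h.diff.continuousOn.mono fun w hw => hR.trans_le hw.1
  have hcl : IsClosed (ψ '' {w | R ≤ ‖w‖ ∧ ‖w‖ ≤ N} ∪ {y | ‖z‖ + 1 ≤ ‖y‖}) :=
    hcomp.isClosed.union (isClosed_le continuous_const continuous_norm)
  rcases closure_minimal hcov hcl hz with ⟨w, hw, e⟩ | hz'
  · exact ⟨w, hw.1, e⟩
  · have : ‖z‖ + 1 ≤ ‖z‖ := hz'
    linarith

theorem isClosed_of_ext {ψ : ℂ → ℂ} {M : Set ℂ} (h : IsExteriorMap M ψ) : IsClosed M := by
  rw [← isOpen_compl_iff, ← h.image]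
  exact Pool.Agent.Helper202.Univ.isOpen_image isOpen_ext h.diff h.inj isOpen_ext (Subset.refl _)

section

variable {ψ : ℂ → ℂ} {bm bp s : ℝ} {p : ℝ → ℂ}

theorem on_mid (h : SectLoop ψ 0 bm bp s p) {t : ℝ} (ht : t ∈ Icc bm bp) :
    ψ (ex s t) ∈ im p := by
  have h0 : 0 < bp - bm := sub_pos.2 h.hb
  have h1 : 0 ≤ (t - bm) / (bp - bm) := div_nonneg (by linarith [ht.1]) h0.le
  have h2 : (t - bm) / (bp - bm) ≤ 1 := by
    rw [div_le_one h0]
    linarith [ht.2]
  refine ⟨(1 + (t - bm) / (bp - bm)) / 3, ⟨by linarith, by linarith⟩, ?_⟩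
  rw [h.mid _ ⟨by linarith, by linarith⟩]
  congr 2
  field_simp
  ring

theorem on_left (h : SectLoop ψ 0 bm bp s p) {σ : ℝ} (h0 : 0 < σ) (h1 : σ ≤ s) :
    ψ (ex σ bm) ∈ im p := by
  have hs : 0 < s := h.hgs
  have h2 : σ / (3 * s) ≤ 1 / 3 := by
    rw [div_le_iff₀ (by positivity)]
    linarith
  have h3 : 0 ≤ σ / (3 * s) := by positivity
  have e : 3 * (σ / (3 * s)) * s = σ := by field_simp
  refine ⟨σ / (3 * s), ⟨h3, by linarith⟩, ?_⟩
  rw [h.left _ ⟨h3, h2⟩ (by rw [e]; exact h0), e]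

theorem on_right (h : SectLoop ψ 0 bm bp s p) {σ : ℝ} (h0 : 0 < σ) (h1 : σ ≤ s) :
    ψ (ex σ bp) ∈ im p := by
  have hs : 0 < s := h.hgs
  have h2 : σ / (3 * s) ≤ 1 / 3 := by
    rw [div_le_iff₀ (by positivity)]
    linarith
  have h3 : 0 ≤ σ / (3 * s) := by positivity
  have e : 3 * (1 - (1 - σ / (3 * s))) * s = σ := by
    field_simp
    ring
  refine ⟨1 - σ / (3 * s), ⟨by linarith, by linarith⟩, ?_⟩
  rw [h.right _ ⟨by linarith, by linarith⟩ (by rw [e]; exact h0), e]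

/-- the points of the loop outside of its base point are in the exterior -/
theorem im_ext (h : SectLoop ψ 0 bm bp s p) {z : ℂ} (hz : z ∈ im p) (hz0 : z ≠ p 0) :
    ∃ w, 1 < ‖w‖ ∧ ψ w = z := by
  obtain ⟨τ, hτ, rfl⟩ := hz
  have hs : 0 < s := h.hgs
  have h0 : 0 < τ := by
    rcases hτ.1.lt_or_eq with h1 | h1
    · exact h1
    · exact absurd (by rw [h1]) hz0
  have h1 : τ < 1 := by
    rcases hτ.2.lt_or_eq with h1 | h1
    · exact h1
    · exact absurd (by rw [h1, h.closed]) hz0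
  rcases le_total τ (1 / 3) with h2 | h2
  · have h3 : 0 < 3 * τ * s := by positivity
    exact ⟨_, ex_mem h3 _, (h.left τ ⟨h0.le, h2⟩ h3).symm⟩
  · rcases le_total τ (2 / 3) with h4 | h4
    · exact ⟨_, ex_mem hs _, (h.mid τ ⟨h2, h4⟩).symm⟩
    · have h3 : 0 < 3 * (1 - τ) * s := by
        have : 0 < 1 - τ := by linarith
        positivity
      exact ⟨_, ex_mem h3 _, (h.right τ ⟨h4, h1.le⟩ h3).symm⟩

theorem key_enc (hS2 : ∀ σ t : ℝ, 0 < σ → (s < σ ∨ ∀ n : ℤ, t + n ∉ Icc bm bp) →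
    ψ (ex σ t) ∉ im p ∧ ¬ Enc p (ψ (ex σ t))) (h : SectLoop ψ 0 bm bp s p) {σ t : ℝ}
    (hσ : 0 < σ) (h1 : ψ (ex σ t) ∉ im p) (h2 : Enc p (ψ (ex σ t))) :
    σ < s ∧ ∃ j : ℤ, t + j ∈ Ioo bm bp := by
  have hex : ∃ j : ℤ, t + j ∈ Icc bm bp := by
    by_contra hc
    push Not at hc
    exact (hS2 σ t hσ (Or.inr hc)).2 h2
  have hle : σ ≤ s := by
    by_contra hc
    exact (hS2 σ t hσ (Or.inl (not_le.1 hc))).2 h2
  obtain ⟨j, hj⟩ := hex
  have e := ex_int σ t j
  have hlt : σ < s := by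
    rcases hle.lt_or_eq with h3 | h3
    · exact h3
    · exfalso
      apply h1
      rw [← e, h3]
      exact on_mid h hj
  refine ⟨hlt, j, lt_of_le_of_ne hj.1 ?_, lt_of_le_of_ne hj.2 ?_⟩
  · intro h4
    apply h1
    rw [← e, ← h4]
    exact on_left h hσ hle
  · intro h4
    apply h1
    rw [← e, h4]
    exact on_right h hσ hle

/-- no compact piece of `M` inside the loop -/
theorem core {M : Set ℂ} (hψ : IsExteriorMap M ψ)
    (hT1 : ∀ S : Set ℂ, IsPreconnected S → Disjoint S (im p) → ∀ z ∈ S, ∀ z' ∈ S,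
      Enc p z → Enc p z')
    (hS2 : ∀ σ t : ℝ, 0 < σ → (s < σ ∨ ∀ n : ℤ, t + n ∉ Icc bm bp) →
      ψ (ex σ t) ∉ im p ∧ ¬ Enc p (ψ (ex σ t))) (h : SectLoop ψ 0 bm bp s p)
    (himc : IsClosed (im p)) {A B : Set ℂ} (hBc : IsCompact B) (hBne : B.Nonempty) (hBM : B ⊆ M)
    (hBW : ∀ z ∈ B, z ∉ im p ∧ Enc p z) (hA : IsClosed A) (hAB : Disjoint A B)
    (hcov : ∀ z ∈ M, z ∉ im p → Enc p z → z ∈ A ∪ B) : False := by
  have hBL : Disjoint B (A ∪ im p) := by
    rw [disjoint_union_right]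
    exact ⟨hAB.symm, disjoint_left.2 fun z hz h => (hBW z hz).1 h⟩
  obtain ⟨δ, hδ, hdis⟩ := hBL.exists_cthickenings hBc (hA.union himc)
  obtain ⟨U, hU⟩ : ∃ U, U = thickening δ B := ⟨_, rfl⟩
  have hUo : IsOpen U := by
    rw [hU]
    exact isOpen_thickening
  have hBU : B ⊆ U := by
    rw [hU]
    exact self_subset_thickening hδ B
  have hclU : closure U ⊆ cthickening δ B := by
    rw [hU]
    exact closure_thickening_subset_cthickening δ B
  have hcW : ∀ z ∈ cthickening δ B, z ∉ im p ∧ Enc p z := by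
    intro z hz
    have hzim : z ∉ im p := fun h =>
      disjoint_left.1 hdis hz (self_subset_cthickening _ (Or.inr h))
    refine ⟨hzim, ?_⟩
    rw [hBc.cthickening_eq_biUnion_closedBall hδ.le] at hz
    obtain ⟨b, hb, hzb⟩ := mem_iUnion₂.1 hz
    refine hT1 (closedBall b δ) (convex_closedBall b δ).isPreconnected ?_ b
      (mem_closedBall_self hδ.le) z hzb (hBW b hb).2
    rw [disjoint_left]
    intro y hy hyim
    exact disjoint_left.1 hdis (closedBall_subset_cthickening hb δ hy)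
      (self_subset_cthickening _ (Or.inr hyim))
  have hclM : ∀ z ∈ closure U, z ∈ M → z ∈ B := by
    intro z hz hzM
    obtain ⟨h1, h2⟩ := hcW z (hclU hz)
    rcases hcov z hzM h1 h2 with h3 | h3
    · exact (disjoint_left.1 hdis (hclU hz) (self_subset_cthickening _ (Or.inl h3))).elim
    · exact h3
  have hfr : ∀ z ∈ frontier U, z ∉ M := by
    intro z hz hzM
    have h1 := hclM z (frontier_subset_closure hz) hzM
    rw [hUo.frontier_eq] at hz
    exact hz.2 (hBU h1)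
  have hfrc : IsCompact (frontier U) :=
    hBc.cthickening.of_isClosed_subset isClosed_frontier (frontier_subset_closure.trans hclU)
  -- the potential is bounded below on the frontier
  obtain ⟨R, hR1, hR⟩ : ∃ R : ℝ, 1 < R ∧ ∀ w : ℂ, 1 < ‖w‖ → ψ w ∈ frontier U → R < ‖w‖ := by
    have hsub : ∀ n : ℕ, {w : ℂ | 1 + 1 / ((n : ℝ) + 1) < ‖w‖} ⊆ {w : ℂ | 1 < ‖w‖} := by
      intro n w hw
      have h1 : 1 + 1 / ((n : ℝ) + 1) < ‖w‖ := hw
      have h2 : 0 < 1 / ((n : ℝ) + 1) := by positivity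
      have h3 : 1 < ‖w‖ := by linarith
      exact h3
    have hcov' : frontier U ⊆ ⋃ n : ℕ, ψ '' {w : ℂ | 1 + 1 / ((n : ℝ) + 1) < ‖w‖} := by
      intro z hz
      have h1 : z ∈ Mᶜ := hfr z hz
      rw [← hψ.image] at h1
      obtain ⟨w, hw, rfl⟩ := h1
      have hw' : 1 < ‖w‖ := hw
      obtain ⟨n, hn⟩ := exists_nat_one_div_lt (sub_pos.2 hw')
      refine mem_iUnion.2 ⟨n, w, ?_, rfl⟩
      have h3 : 1 + 1 / ((n : ℝ) + 1) < ‖w‖ := by linarith
      exact h3
    have hmono : Monotone fun n : ℕ => ψ '' {w : ℂ | 1 + 1 / ((n : ℝ) + 1) < ‖w‖} := by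
      intro m n hmn
      refine image_mono fun w hw => ?_
      have h1 : 1 + 1 / ((m : ℝ) + 1) < ‖w‖ := hw
      have h2 : 1 / ((n : ℝ) + 1) ≤ 1 / ((m : ℝ) + 1) := by
        apply one_div_le_one_div_of_le (by positivity)
        have : (m : ℝ) ≤ n := by exact_mod_cast hmn
        linarith
      have h3 : 1 + 1 / ((n : ℝ) + 1) < ‖w‖ := by linarith
      exact h3
    obtain ⟨n, hn⟩ := hfrc.elim_directed_cover _
      (fun n : ℕ => Pool.Agent.Helper202.Univ.isOpen_image isOpen_ext hψ.diff hψ.inj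
        (isOpen_lt continuous_const continuous_norm) (hsub n)) hcov' hmono.directed_le
    refine ⟨1 + 1 / ((n : ℝ) + 1), by
      have : 0 < 1 / ((n : ℝ) + 1) := by positivity
      linarith, fun w hw hwf => ?_⟩
    obtain ⟨w', hw', e⟩ := hn hwf
    have := hψ.inj (hsub n hw') hw e
    rw [← this]
    exact hw'
  -- small potentials
  have hsmall : ∀ R' : ℝ, 1 < R' → ∃ w : ℂ, 1 < ‖w‖ ∧ ‖w‖ < R' ∧ ψ w ∈ U := by
    intro R' hR'
    by_contra hc
    push Not at hc
    have hBo : IsOpen B := by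
      have e : B = U ∩ (ψ '' {w | R' ≤ ‖w‖})ᶜ := by
        ext z
        constructor
        · intro hz
          refine ⟨hBU hz, ?_⟩
          rintro ⟨w, hw, rfl⟩
          have h1 : ψ w ∈ Mᶜ := by
            rw [← hψ.image]
            exact mem_image_of_mem ψ (hR'.trans_le hw)
          exact h1 (hBM hz)
        · rintro ⟨hz, hz'⟩
          have hzM : z ∈ M := by
            by_contra hzM
            have h1 : z ∈ Mᶜ := hzM
            rw [← hψ.image] at h1
            obtain ⟨w, hw, rfl⟩ := h1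
            by_cases hwR : ‖w‖ < R'
            · exact hc w hw hwR hz
            · exact hz' ⟨w, not_lt.1 hwR, rfl⟩
          exact hclM z (subset_closure hz) hzM
      rw [e]
      exact hUo.inter (isClosed_far hψ hR').isOpen_compl
    rcases isClopen_iff.1 ⟨hBc.isClosed, hBo⟩ with h1 | h1
    · exact hBne.ne_empty h1
    · exact noncompact_univ ℂ (h1 ▸ hBc)
  -- the sector of small potentials
  have hs : 0 < s := h.hgs
  obtain ⟨σ₀, hσ₀⟩ : ∃ σ₀ : ℝ, σ₀ = min (Real.log R) s := ⟨_, rfl⟩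
  have hσ₀0 : 0 < σ₀ := by
    rw [hσ₀]
    exact lt_min (Real.log_pos hR1) hs
  have hσ₀s : σ₀ ≤ s := by
    rw [hσ₀]
    exact min_le_right _ _
  have hσ₀R : Real.exp σ₀ ≤ R := by
    rw [← Real.le_log_iff_exp_le (by linarith), hσ₀]
    exact min_le_left _ _
  obtain ⟨Sg, hSgd⟩ : ∃ Sg : Set ℂ, Sg = (fun q : ℝ × ℝ => ψ (ex q.1 q.2)) ''
      (Ioo 0 σ₀ ×ˢ Ioo bm bp) := ⟨_, rfl⟩
  have hSg : IsPreconnected Sg := by
    rw [hSgd]
    refine (isPreconnected_Ioo.prod isPreconnected_Ioo).image _ ?_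
    refine hψ.diff.continuousOn.comp continuous_ex.continuousOn ?_
    rintro ⟨σ, t⟩ hq
    exact ex_mem hq.1.1 t
  obtain ⟨w, hw1, hw2, hwU⟩ := hsmall (Real.exp σ₀) (Real.one_lt_exp_iff.2 hσ₀0)
  obtain ⟨t, ht⟩ := exists_ex hw1
  have hlw : Real.log ‖w‖ < σ₀ := by
    rw [Real.log_lt_iff_lt_exp (by linarith)]
    exact hw2
  have hwW := hcW _ (hclU (subset_closure hwU))
  have hwt : ψ w = ψ (ex (Real.log ‖w‖) t) := congrArg ψ ht
  rw [hwt] at hwW
  obtain ⟨-, j, hj⟩ := key_enc hS2 h (Real.log_pos hw1) hwW.1 hwW.2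
  have hmeet : (Sg ∩ U).Nonempty := by
    refine ⟨ψ w, ?_, hwU⟩
    rw [hSgd]
    refine ⟨(Real.log ‖w‖, t + j), ⟨⟨Real.log_pos hw1, hlw⟩, hj⟩, ?_⟩
    show ψ (ex (Real.log ‖w‖) (t + j)) = ψ w
    rw [ex_int, ← ht]
  have hSU : Sg ⊆ U := by
    refine hSg.subset_left_of_subset_union hUo isClosed_closure.isOpen_compl
      (disjoint_left.2 fun z h1 h2 => h2 (subset_closure h1)) ?_ hmeet
    rw [hSgd]
    rintro _ ⟨⟨σ, t'⟩, hq, rfl⟩
    by_contra hc
    rw [mem_union, not_or] at hc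
    obtain ⟨h1, h2⟩ := hc
    rw [mem_compl_iff, not_not] at h2
    have h3 : ψ (ex σ t') ∈ frontier U := by
      rw [hUo.frontier_eq]
      exact ⟨h2, h1⟩
    have h4 := hR _ (ex_mem hq.1.1 t') h3
    rw [norm_ex] at h4
    have h5 : Real.exp σ < Real.exp σ₀ := Real.exp_lt_exp.2 hq.1.2
    linarith
  have hq : ψ (ex (σ₀ / 2) bm) ∈ closure U := by
    have hσ : 0 < σ₀ / 2 := by positivity
    have h1 : ContinuousAt (fun t : ℝ => ψ (ex (σ₀ / 2) t)) bm := by
      have h2 : ContinuousAt ψ (ex (σ₀ / 2) bm) :=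
        (hψ.diff.differentiableAt (isOpen_ext.mem_nhds (ex_mem hσ bm))).continuousAt
      have h3 : ContinuousAt (fun t : ℝ => ex (σ₀ / 2) t) bm := by
        unfold ex
        fun_prop
      exact ContinuousAt.comp (g := ψ) h2 h3
    have h4 : Tendsto (fun t : ℝ => ψ (ex (σ₀ / 2) t)) (𝓝[>] bm) (𝓝 (ψ (ex (σ₀ / 2) bm))) :=
      h1.tendsto.mono_left nhdsWithin_le_nhds
    refine mem_closure_of_tendsto h4 ?_
    filter_upwards [Ioo_mem_nhdsGT h.hb] with t ht
    apply hSU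
    rw [hSgd]
    exact ⟨(σ₀ / 2, t), ⟨⟨hσ, by show σ₀ / 2 < σ₀; linarith⟩, ht⟩, rfl⟩
  exact disjoint_left.1 hdis (hclU hq)
    (self_subset_cthickening _ (Or.inr (on_left h (by positivity) (by linarith))))

end

/-- LC-RETR -/
theorem retr : S_TOP → S_SECT → S_RETR := by
  intro hT hS d ψ c₀ r ρ bm bp s θ p hd hψ h him hρ hdis hc₀ hθ hlim
  have hdom : ({w : ℂ | 1 < ‖w‖} : Set ℂ) = Dom 0 := by
    ext w
    exact mem_dom.symm
  have hdiff : DifferentiableOn ℂ ψ (Dom 0) := hdom ▸ hψ.diff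
  have hinj : InjOn ψ (Dom 0) := hdom ▸ hψ.inj
  obtain ⟨hS1, hS2⟩ := hS ψ 0 bm bp s p hdiff hinj hψ.infinity h
  have hT1 := hT.1 p
  have hT1' : ∀ S : Set ℂ, IsPreconnected S → Disjoint S (im p) → ∀ z ∈ S, ∀ z' ∈ S,
      Enc p z → Enc p z' := fun S => hT.1 p S h.cont h.closed
  have hT2 : ∀ z, z ∉ ball c₀ r → ¬ Enc p z := fun z hz => hT.2.1 p c₀ z r h.cont h.closed him hz
  have hs : 0 < s := h.hgs
  have himc : IsClosed (im p) := (isCompact_Icc.image_of_continuousOn h.cont).isClosed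
  have hM : IsClosed (multibrotSet d) := isClosed_of_ext hψ
  -- points of the ball are inside
  have hball : ∀ z ∈ ball c₀ ρ, z ∉ im p ∧ Enc p z := by
    intro z hz
    refine ⟨fun h' => disjoint_left.1 hdis hz h', ?_⟩
    have h1 : ∀ᶠ σ : ℝ in 𝓝[>] 0, ψ (ex σ θ) ∈ ball c₀ ρ := hlim (ball_mem_nhds c₀ hρ)
    have h2 : ∀ᶠ σ : ℝ in 𝓝[>] 0, σ ∈ Ioo 0 s := Ioo_mem_nhdsGT hs
    obtain ⟨σ, h3, h4⟩ := (h1.and h2).exists
    exact hT1' (ball c₀ ρ) (convex_ball c₀ ρ).isPreconnected hdis _ h3 z hz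
      (hS1 σ θ h4.1 h4.2 hθ).2
  refine ⟨fun σ t h1 h2 h3 => ?_, fun σ t h1 h2 => ?_, ?_⟩
  · by_contra hc
    exact hT2 _ hc (hS1 σ t h1 h2 h3).2
  · obtain ⟨h3, h4⟩ := hball _ h2
    exact key_enc hS2 h h1 h3 h4
  obtain ⟨K, hK⟩ : ∃ K : Set ℂ, K = {z | z ∈ multibrotSet d ∧ (z ∈ im p ∨ Enc p z)} := ⟨_, rfl⟩
  -- `K` is compact
  have hKsub : K ⊆ closedBall c₀ r := by
    rw [hK]
    rintro z ⟨-, hz | hz⟩
    · exact ball_subset_closedBall (him hz)
    · by_contra hc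
      exact hT2 z (fun h' => hc (ball_subset_closedBall h')) hz
  have hfill : IsClosed {z | z ∈ im p ∨ Enc p z} := by
    rw [← isOpen_compl_iff, Metric.isOpen_iff]
    intro z hz
    have hz1 : z ∉ im p := fun h' => hz (Or.inl h')
    have hz2 : ¬ Enc p z := fun h' => hz (Or.inr h')
    obtain ⟨ε, hε, hsub⟩ := Metric.isOpen_iff.1 himc.isOpen_compl z hz1
    refine ⟨ε, hε, fun y hy hy' => ?_⟩
    rcases hy' with h1 | h1
    · exact hsub hy h1
    · exact hz2 (hT1' (ball z ε) (convex_ball z ε).isPreconnected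
        (disjoint_left.2 fun x hx hx' => hsub hx hx') y hy z (mem_ball_self hε) h1)
  have hKc : IsClosed K := by
    rw [hK]
    exact hM.inter hfill
  have hKcomp : IsCompact K :=
    Metric.isCompact_of_isClosed_isBounded hKc (isBounded_closedBall.subset hKsub)
  have hc₀K : c₀ ∈ K := by
    rw [hK]
    exact ⟨hc₀, Or.inr (hball c₀ (mem_ball_self hρ)).2⟩
  have hp0 : p 0 ∈ multibrotSet d := by
    by_contra hc
    have h1 : p 0 ∈ (multibrotSet d)ᶜ := hc
    rw [← hψ.image, hdom] at h1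
    exact h.leftlow 0 ⟨le_rfl, by norm_num⟩ (by simp) h1
  have hp0K : p 0 ∈ K := by
    rw [hK]
    exact ⟨hp0, Or.inl ⟨0, ⟨le_rfl, zero_le_one⟩, rfl⟩⟩
  refine ⟨K, hKcomp, ⟨⟨c₀, hc₀K⟩, ?_⟩, ?_, ?_, hKsub⟩
  · -- connectedness
    have main : ∀ A B : Set ℂ, IsClosed A → IsClosed B → K ⊆ A ∪ B → p 0 ∈ A →
        (K ∩ B).Nonempty → (K ∩ (A ∩ B)).Nonempty := by
      intro A B hA hB hcov hpA hKB
      by_contra hne
      rw [not_nonempty_iff_eq_empty] at hne
      have hAB : Disjoint (K ∩ A) (K ∩ B) := by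
        rw [disjoint_left]
        intro z h1 h2
        have : z ∈ K ∩ (A ∩ B) := ⟨h1.1, h1.2, h2.2⟩
        rw [hne] at this
        exact this
      refine core (M := multibrotSet d) hψ hT1' hS2 h himc (A := K ∩ A) (B := K ∩ B)
        (hKcomp.inter_right hB) hKB ?_ ?_ (hKc.inter hA) hAB ?_
      · intro z hz
        have := hz.1
        rw [hK] at this
        exact this.1
      · intro z hz
        have h1 := hz.1
        rw [hK] at h1
        have hzim : z ∉ im p := by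
          intro hzim
          by_cases hz0 : z = p 0
          · exact disjoint_left.1 hAB ⟨hp0K, hpA⟩ (hz0 ▸ hz)
          · obtain ⟨w, hw, e⟩ := im_ext h hzim hz0
            have h2 : z ∈ (multibrotSet d)ᶜ := by
              rw [← hψ.image, ← e]
              exact mem_image_of_mem ψ hw
            exact h2 h1.1
        exact ⟨hzim, h1.2.resolve_left hzim⟩
      · intro z h1 h2 h3
        have hzK : z ∈ K := by
          rw [hK]
          exact ⟨h1, Or.inr h3⟩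
        rcases hcov hzK with h4 | h4
        · exact Or.inl ⟨hzK, h4⟩
        · exact Or.inr ⟨hzK, h4⟩
    rw [isPreconnected_closed_iff]
    intro A B hA hB hcov hKA hKB
    rcases hcov hp0K with h1 | h1
    · exact main A B hA hB hcov h1 hKB
    · have := main B A hB hA (by rwa [union_comm]) h1 hKA
      rwa [inter_comm B A] at this
  · rw [hK]
    exact fun z hz => hz.1
  · intro z hz
    rw [hK]
    exact ⟨hz.1, Or.inr (hball z hz.2).2⟩

end Pool.Agent.Y438.LC
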